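import Mathlib

set_option autoImplicit false
set_option linter.unusedSectionVars false

/-!
# The straightening map for words (Jacobson's lemma)

`L` is a Lie algebra over `K` with a basis `b` indexed by a linear order `ι`, `N` any module, `z : List ι → N`.
`sig b z` is the function on words which is `z` on sorted words and satisfies
`sig (u a b v) = sig (u b a v) + sig (u [a, b] v)`.
-/

namespace Pool.Agent.Bht.LibPBW88

variable {K : Type*} [CommRing K] {L : Type*} [LieRing L] [LieAlgebra K L] {ι : Type*} [LinearOrder ι]
variable {N : Type*} [AddCommGroup N] [Module K N]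

/-- The number of inversions of a word. -/
def inv : List ι → ℕ
  | [] => 0
  | a :: l => l.countP (fun x => x < a) + inv l

theorem inv_swap (u v : List ι) {a b : ι} (h : b < a) :
    inv (u ++ b :: a :: v) < inv (u ++ a :: b :: v) := by
  induction u with
  | nil =>
    have h1 : ¬ a < b := not_lt.mpr h.le
    simp only [List.nil_append, inv, List.countP_cons, h, h1]
    simp
    omega
  | cons x u ih =>
    have h1 : (u ++ b :: a :: v).countP (fun y => y < x) = (u ++ a :: b :: v).countP (fun y => y < x) := by
      apply List.Perm.countP_eq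
      exact List.Perm.append_left u (List.Perm.swap a b v)
    simp only [List.cons_append, inv]
    rw [h1]
    omega

open Classical in
/-- The straightening map. -/
noncomputable def sig (b : Module.Basis ι K L) (z : List ι → N) (w : List ι) : N :=
  if h : ∃ d : List ι × ι × ι × List ι, w = d.1 ++ d.2.1 :: d.2.2.1 :: d.2.2.2 ∧ d.2.2.1 < d.2.1 then
    sig b z (h.choose.1 ++ h.choose.2.2.1 :: h.choose.2.1 :: h.choose.2.2.2) +
      (b.repr ⁅b h.choose.2.1, b h.choose.2.2.1⁆).sum
        (fun e k => k • sig b z (h.choose.1 ++ e :: h.choose.2.2.2))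
  else z w
termination_by (w.length, inv w)
decreasing_by
  · have h1 := h.choose_spec
    have h2 := inv_swap h.choose.1 h.choose.2.2.2 h1.2
    have h3 : (h.choose.1 ++ h.choose.2.2.1 :: h.choose.2.1 :: h.choose.2.2.2).length = w.length := by
      conv_rhs => rw [h1.1]
      simp
    rw [h3]
    apply Prod.Lex.right
    conv_rhs => rw [h1.1]
    exact h2
  · have h1 := h.choose_spec
    apply Prod.Lex.left
    conv_rhs => rw [h1.1]
    simp

/-- The linear extension in one slot. -/
noncomputable def S1 (b : Module.Basis ι K L) (z : List ι → N) (u v : List ι) : L →ₗ[K] N :=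
  b.constr K (fun e => sig b z (u ++ e :: v))

/-- The bilinear extension in two adjacent slots. -/
noncomputable def S2 (b : Module.Basis ι K L) (z : List ι → N) (u v : List ι) : L →ₗ[K] L →ₗ[K] N :=
  b.constr K (fun e => b.constr K (fun f => sig b z (u ++ e :: f :: v)))

theorem S1_basis (b : Module.Basis ι K L) (z : List ι → N) (u v : List ι) (e : ι) :
    S1 b z u v (b e) = sig b z (u ++ e :: v) := by
  unfold S1
  rw [Module.Basis.constr_basis]

theorem S2_basis (b : Module.Basis ι K L) (z : List ι → N) (u v : List ι) (e f : ι) :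
    S2 b z u v (b e) (b f) = sig b z (u ++ e :: f :: v) := by
  unfold S2
  rw [Module.Basis.constr_basis, Module.Basis.constr_basis]

theorem S2_left (b : Module.Basis ι K L) (z : List ι → N) (u v : List ι) (x : L) (f : ι) :
    S2 b z u v x (b f) = S1 b z u (f :: v) x := by
  have h : (S2 b z u v).flip (b f) = S1 b z u (f :: v) := by
    apply b.ext
    intro e
    rw [LinearMap.flip_apply, S2_basis, S1_basis]
  rw [← h, LinearMap.flip_apply]

theorem S2_right (b : Module.Basis ι K L) (z : List ι → N) (u v : List ι) (y : L) (e : ι) :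
    S2 b z u v (b e) y = S1 b z (u ++ [e]) v y := by
  have h : S2 b z u v (b e) = S1 b z (u ++ [e]) v := by
    apply b.ext
    intro f
    rw [S2_basis, S1_basis]
    simp
  rw [h]

/-- `w` is straightened at the descent `u a b v`. -/
def Good (b : Module.Basis ι K L) (z : List ι → N) (w : List ι) : Prop :=
  ∀ u p q v, w = u ++ p :: q :: v → q < p →
    sig b z w = sig b z (u ++ q :: p :: v) + S1 b z u v ⁅b p, b q⁆

theorem sig_of_choice (b : Module.Basis ι K L) (z : List ι → N) (w : List ι)
    (h : ∃ d : List ι × ι × ι × List ι, w = d.1 ++ d.2.1 :: d.2.2.1 :: d.2.2.2 ∧ d.2.2.1 < d.2.1) :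
    ∃ u p q v, w = u ++ p :: q :: v ∧ q < p ∧
      sig b z w = sig b z (u ++ q :: p :: v) + S1 b z u v ⁅b p, b q⁆ := by
  refine ⟨h.choose.1, h.choose.2.1, h.choose.2.2.1, h.choose.2.2.2, h.choose_spec.1, h.choose_spec.2, ?_⟩
  conv_lhs => rw [sig]
  rw [dif_pos h]
  unfold S1
  rw [Module.Basis.constr_apply]

theorem sig_of_sorted (b : Module.Basis ι K L) (z : List ι → N) (w : List ι)
    (h : ¬ ∃ d : List ι × ι × ι × List ι, w = d.1 ++ d.2.1 :: d.2.2.1 :: d.2.2.2 ∧ d.2.2.1 < d.2.1) :
    sig b z w = z w := by
  rw [sig, dif_neg h]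

/-- The commutation rule in two slots, given that all words of that length are good. -/
theorem comm_slots (b : Module.Basis ι K L) (z : List ι → N) (u v : List ι)
    (hG : ∀ w : List ι, w.length = u.length + v.length + 2 → Good b z w) (x y : L) :
    S2 b z u v x y - S2 b z u v y x = S1 b z u v ⁅x, y⁆ := by
  have h : S2 b z u v - (S2 b z u v).flip =
      ((LieModule.toEnd K L L : L →ₗ[K] Module.End K L)).compr₂ (S1 b z u v) := by
    apply b.ext
    intro e
    apply b.ext
    intro f
    simp only [LinearMap.sub_apply, LinearMap.flip_apply, LinearMap.compr₂_apply]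
    rw [S2_basis, S2_basis]
    show _ = S1 b z u v ⁅b e, b f⁆
    rcases lt_trichotomy e f with hlt | heq | hgt
    · have h1 := hG (u ++ f :: e :: v) (by simp; omega) u f e v rfl hlt
      rw [h1, ← lie_skew, map_neg]
      abel
    · subst heq
      rw [lie_self, map_zero, sub_self]
    · have h1 := hG (u ++ e :: f :: v) (by simp; omega) u e f v rfl hgt
      rw [h1]
      abel
  have h2 := congrArg (fun B => B x y) h
  simp only [LinearMap.sub_apply, LinearMap.flip_apply, LinearMap.compr₂_apply] at h2
  exact h2

end Pool.Agent.Bht.LibPBW88
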