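import Mathlib
import Pool.Agent.Bht.LibPBW88.Sig

set_option autoImplicit false
set_option linter.unusedSectionVars false

namespace Pool.Agent.Bht.LibPBW88

variable {K : Type*} [CommRing K] {L : Type*} [LieRing L] [LieAlgebra K L] {ι : Type*} [LinearOrder ι]
variable {N : Type*} [AddCommGroup N] [Module K N]

/-- Order on words: shorter, or the same length and fewer inversions. -/
def Lt (w' w : List ι) : Prop := w'.length < w.length ∨ (w'.length = w.length ∧ inv w' < inv w)

theorem Lt.trans {a b c : List ι} (h1 : Lt a b) (h2 : Lt b c) : Lt a c := by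
  unfold Lt at *
  omega

theorem lt_swap (u v : List ι) {p q : ι} (h : q < p) : Lt (u ++ q :: p :: v) (u ++ p :: q :: v) := by
  right
  refine ⟨by simp, inv_swap u v h⟩

/-- Confluence, overlapping case. -/
private theorem conf_over (b : Module.Basis ι K L) (z : List ι → N) (u v : List ι) {p q r : ι}
    (hqp : q < p) (hrq : r < q)
    (IH : ∀ w', Lt w' (u ++ p :: q :: r :: v) → Good b z w') :
    sig b z (u ++ q :: p :: r :: v) + S1 b z u (r :: v) ⁅b p, b q⁆ =
      sig b z ((u ++ [p]) ++ r :: q :: v) + S1 b z (u ++ [p]) v ⁅b q, b r⁆ := by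
  have hrp : r < p := hrq.trans hqp
  have l1 : Lt (u ++ q :: p :: r :: v) (u ++ p :: q :: r :: v) := lt_swap u (r :: v) hqp
  have l2 : Lt (u ++ q :: r :: p :: v) (u ++ q :: p :: r :: v) := by
    have := lt_swap (u ++ [q]) v hrp
    simpa using this
  have m1 : Lt (u ++ p :: r :: q :: v) (u ++ p :: q :: r :: v) := by
    have := lt_swap (u ++ [p]) v hrq
    simpa using this
  have m2 : Lt (u ++ r :: p :: q :: v) (u ++ p :: r :: q :: v) := lt_swap u (q :: v) hrp
  have A1 := IH _ l1 (u ++ [q]) p r v (by simp) hrp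
  have A2 := IH _ (l2.trans l1) u q r (p :: v) rfl hrq
  have B1 := IH _ m1 u p r (q :: v) rfl hrp
  have B2 := IH _ (m2.trans m1) (u ++ [r]) p q v (by simp) hqp
  have hG : ∀ w : List ι, w.length = u.length + v.length + 2 → Good b z w := by
    intro w hw
    apply IH
    left
    simp only [List.length_append, List.length_cons]
    omega
  have c1 := comm_slots b z u v hG ⁅b q, b r⁆ (b p)
  have c2 := comm_slots b z u v hG (b q) ⁅b p, b r⁆
  have c3 := comm_slots b z u v hG ⁅b p, b q⁆ (b r)
  have jac : ⁅⁅b q, b r⁆, b p⁆ + ⁅b q, ⁅b p, b r⁆⁆ + ⁅⁅b p, b q⁆, b r⁆ = 0 := by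
    have h1 := leibniz_lie (b p) (b q) (b r)
    have h2 : ⁅⁅b q, b r⁆, b p⁆ = - ⁅b p, ⁅b q, b r⁆⁆ := (lie_skew _ _).symm
    rw [h2, h1]
    abel
  have hs : S1 b z u v ⁅⁅b q, b r⁆, b p⁆ + S1 b z u v ⁅b q, ⁅b p, b r⁆⁆ +
      S1 b z u v ⁅⁅b p, b q⁆, b r⁆ = 0 := by
    rw [← map_add, ← map_add, jac, map_zero]
  rw [← c1, ← c2, ← c3] at hs
  simp only [S2_left, S2_right] at hs
  simp only [List.append_assoc, List.cons_append, List.nil_append] at A1 A2 B1 B2 hs ⊢
  rw [A1, A2, B1, B2]
  have key : ∀ (s x1 x2 x3 x4 x5 x6 : N), x1 - x2 + (x3 - x4) + (x5 - x6) = 0 →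
      s + x1 + x3 + x5 = s + x6 + x4 + x2 := by
    intro s x1 x2 x3 x4 x5 x6 h
    have h' : x1 + x3 + x5 = x6 + x4 + x2 := by
      rw [← sub_eq_zero]
      rw [← h]
      abel
    calc s + x1 + x3 + x5 = s + (x1 + x3 + x5) := by abel
      _ = s + (x6 + x4 + x2) := by rw [h']
      _ = s + x6 + x4 + x2 := by abel
  exact key _ _ _ _ _ _ _ hs

/-- Confluence, disjoint case. -/
private theorem conf_disj (b : Module.Basis ι K L) (z : List ι → N) (u m v : List ι) {p q p' q' : ι}
    (hqp : q < p) (hqp' : q' < p')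
    (IH : ∀ w', Lt w' (u ++ p :: q :: (m ++ p' :: q' :: v)) → Good b z w') :
    sig b z (u ++ q :: p :: (m ++ p' :: q' :: v)) + S1 b z u (m ++ p' :: q' :: v) ⁅b p, b q⁆ =
      sig b z ((u ++ p :: q :: m) ++ q' :: p' :: v) + S1 b z (u ++ p :: q :: m) v ⁅b p', b q'⁆ := by
  have l1 : Lt (u ++ q :: p :: (m ++ p' :: q' :: v)) (u ++ p :: q :: (m ++ p' :: q' :: v)) :=
    lt_swap u _ hqp
  have l2 : Lt (u ++ p :: q :: (m ++ q' :: p' :: v)) (u ++ p :: q :: (m ++ p' :: q' :: v)) := by
    have := lt_swap (u ++ p :: q :: m) v hqp'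
    simpa using this
  have C1 := IH _ l1 (u ++ q :: p :: m) p' q' v (by simp) hqp'
  have D1 := IH _ l2 u p q (m ++ q' :: p' :: v) rfl hqp
  have hshort : ∀ w : List ι, w.length + 1 = (u ++ p :: q :: (m ++ p' :: q' :: v)).length →
      Good b z w := by
    intro w hw
    apply IH
    left
    omega
  obtain ⟨T, hT⟩ : ∃ T : L →ₗ[K] L →ₗ[K] N, ∀ e y, T (b e) y = S1 b z (u ++ e :: m) v y := by
    refine ⟨b.constr K (fun e => S1 b z (u ++ e :: m) v), ?_⟩
    intro e y
    rw [Module.Basis.constr_basis]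
  have hT2 : ∀ x f, T x (b f) = S1 b z u (m ++ f :: v) x := by
    intro x f
    have h : T.flip (b f) = S1 b z u (m ++ f :: v) := by
      apply b.ext
      intro e
      rw [LinearMap.flip_apply, hT, S1_basis, S1_basis]
      simp
    rw [← h, LinearMap.flip_apply]
  have E2 : ∀ x, S1 b z u (m ++ p' :: q' :: v) x =
      S1 b z u (m ++ q' :: p' :: v) x + T x ⁅b p', b q'⁆ := by
    intro x
    have h : S1 b z u (m ++ p' :: q' :: v) =
        S1 b z u (m ++ q' :: p' :: v) + T.flip ⁅b p', b q'⁆ := by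
      apply b.ext
      intro e
      rw [LinearMap.add_apply, LinearMap.flip_apply, hT, S1_basis, S1_basis]
      have h1 := hshort (u ++ e :: (m ++ p' :: q' :: v)) (by simp; omega)
        (u ++ e :: m) p' q' v (by simp) hqp'
      rw [h1]
      simp
    rw [h, LinearMap.add_apply, LinearMap.flip_apply]
  have E1 : ∀ y, S1 b z (u ++ p :: q :: m) v y =
      S1 b z (u ++ q :: p :: m) v y + T ⁅b p, b q⁆ y := by
    intro y
    have h : S1 b z (u ++ p :: q :: m) v = S1 b z (u ++ q :: p :: m) v + T ⁅b p, b q⁆ := by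
      apply b.ext
      intro f
      rw [LinearMap.add_apply, hT2, S1_basis, S1_basis]
      have h1 := hshort (u ++ p :: q :: (m ++ f :: v)) (by simp; omega)
        u p q (m ++ f :: v) rfl hqp
      simp only [List.append_assoc, List.cons_append] at h1 ⊢
      rw [h1]
    rw [h, LinearMap.add_apply]
  simp only [List.append_assoc, List.cons_append] at C1 D1 ⊢
  rw [C1, D1, E2, E1]
  abel

private theorem conf (b : Module.Basis ι K L) (z : List ι → N) (w : List ι)
    (IH : ∀ w', Lt w' w → Good b z w') {u v u' v' : List ι} {p q p' q' : ι}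
    (h1 : w = u ++ p :: q :: v) (hqp : q < p) (h2 : w = u' ++ p' :: q' :: v') (hqp' : q' < p')
    {t : List ι} (ht : u' = u ++ t) :
    sig b z (u ++ q :: p :: v) + S1 b z u v ⁅b p, b q⁆ =
      sig b z (u' ++ q' :: p' :: v') + S1 b z u' v' ⁅b p', b q'⁆ := by
  subst ht
  have h3 : p :: q :: v = t ++ p' :: q' :: v' := by
    have h4 : u ++ p :: q :: v = u ++ (t ++ p' :: q' :: v') := by
      rw [← List.append_assoc, ← h1, h2]
    exact List.append_cancel_left h4
  match t, h3 with
  | [], h3 =>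
    simp only [List.nil_append, List.cons.injEq] at h3
    obtain ⟨rfl, rfl, rfl⟩ := h3
    simp
  | [x], h3 =>
    simp only [List.cons_append, List.nil_append, List.cons.injEq] at h3
    obtain ⟨rfl, rfl, rfl⟩ := h3
    subst h1
    exact conf_over b z u v' hqp hqp' IH
  | x :: y :: m, h3 =>
    simp only [List.cons_append, List.cons.injEq] at h3
    obtain ⟨rfl, rfl, rfl⟩ := h3
    subst h1
    exact conf_disj b z u m v' hqp hqp' IH

/-- Jacobson's lemma: every word is straightened at each of its descents. -/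
theorem good (b : Module.Basis ι K L) (z : List ι → N) (w : List ι) : Good b z w := by
  have key : ∀ (n k : ℕ) (w : List ι), w.length = n → inv w = k → Good b z w := by
    intro n
    induction n using Nat.strong_induction_on with
    | _ n ihn =>
      intro k
      induction k using Nat.strong_induction_on with
      | _ k ihk =>
        intro w hn hk
        have IH : ∀ w', Lt w' w → Good b z w' := by
          intro w' hw'
          rcases hw' with h | ⟨h1, h2⟩
          · exact ihn _ (by rw [← hn]; exact h) _ w' rfl rfl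
          · exact ihk _ (by rw [← hk]; exact h2) w' (by rw [h1, hn]) rfl
        intro u p q v hw hqp
        have hex : ∃ d : List ι × ι × ι × List ι,
            w = d.1 ++ d.2.1 :: d.2.2.1 :: d.2.2.2 ∧ d.2.2.1 < d.2.1 := ⟨(u, p, q, v), hw, hqp⟩
        obtain ⟨u0, p0, q0, v0, hw0, hqp0, hsig⟩ := sig_of_choice b z w hex
        rw [hsig]
        have happ : u ++ p :: q :: v = u0 ++ p0 :: q0 :: v0 := by rw [← hw, hw0]
        rcases List.append_eq_append_iff.mp happ with ⟨t, ht, _⟩ | ⟨t, ht, _⟩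
        · exact (conf b z w IH hw hqp hw0 hqp0 ht).symm
        · exact conf b z w IH hw0 hqp0 hw hqp ht
  exact key _ _ w rfl rfl

/-- The commutation rule for all `x`, `y`. -/
theorem comm (b : Module.Basis ι K L) (z : List ι → N) (u v : List ι) (x y : L) :
    S2 b z u v x y - S2 b z u v y x = S1 b z u v ⁅x, y⁆ :=
  comm_slots b z u v (fun w _ => good b z w) x y

end Pool.Agent.Bht.LibPBW88
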