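import Mathlib
import Pool.Agent.Bht.LibPBW88.Good

set_option autoImplicit false
set_option linter.unusedSectionVars false

/-!
# The Poincare-Birkhoff-Witt theorem

`mon b w` = product of the letters of the word `w` in the universal enveloping algebra; the products of the
sorted words form a basis.
-/

namespace Pool.Agent.Bht.LibPBW88

attribute [local instance 100] LieRing.ofAssociativeRing

variable {K : Type*} [CommRing K] {L : Type*} [LieRing L] [LieAlgebra K L] {ι : Type*} [LinearOrder ι]

/-- The straightening values: a sorted word goes to its multiset. -/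
noncomputable def zz (K : Type*) [CommRing K] {ι : Type*} (w : List ι) : Multiset ι →₀ K :=
  Finsupp.single (w : Multiset ι) 1

theorem no_descent {w : List ι}
    (h : ¬ ∃ d : List ι × ι × ι × List ι, w = d.1 ++ d.2.1 :: d.2.2.1 :: d.2.2.2 ∧ d.2.2.1 < d.2.1) :
    w.Pairwise (· ≤ ·) := by
  rw [← List.isChain_iff_pairwise, List.isChain_iff_forall_rel_of_append_cons_cons]
  intro a b l1 l2 hw
  by_contra hab
  exact h ⟨(l1, a, b, l2), hw, not_le.mp hab⟩

theorem sort_of_pairwise {w : List ι} (h : w.Pairwise (· ≤ ·)) :
    (w : Multiset ι).sort (· ≤ ·) = w := by
  rw [Multiset.coe_sort]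
  exact List.mergeSort_eq_self _ h

theorem pairwise_no_descent {w : List ι} (h : w.Pairwise (· ≤ ·)) :
    ¬ ∃ d : List ι × ι × ι × List ι, w = d.1 ++ d.2.1 :: d.2.2.1 :: d.2.2.2 ∧ d.2.2.1 < d.2.1 := by
  rintro ⟨d, hw, hd⟩
  rw [← List.isChain_iff_pairwise, List.isChain_iff_forall_rel_of_append_cons_cons] at h
  exact absurd (h hw) (not_le.mpr hd)

theorem sig_sort (b : Module.Basis ι K L) (s : Multiset ι) :
    sig b (zz K) (s.sort (· ≤ ·)) = Finsupp.single s 1 := by
  rw [sig_of_sorted b (zz K) _ (pairwise_no_descent (Multiset.pairwise_sort s (· ≤ ·)))]
  unfold zz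
  rw [Multiset.sort_eq]

/-- The action of `x` on the module with basis the multisets. -/
noncomputable def act (b : Module.Basis ι K L) (x : L) : (Multiset ι →₀ K) →ₗ[K] (Multiset ι →₀ K) :=
  Finsupp.linearCombination K (fun s : Multiset ι => S1 b (zz K) [] (s.sort (· ≤ ·)) x)

theorem act_single (b : Module.Basis ι K L) (x : L) (s : Multiset ι) :
    act b x (Finsupp.single s 1) = S1 b (zz K) [] (s.sort (· ≤ ·)) x := by
  unfold act
  rw [Finsupp.linearCombination_single, one_smul]

theorem act_sig (b : Module.Basis ι K L) : ∀ (w : List ι) (x : L),
    act b x (sig b (zz K) w) = S1 b (zz K) [] w x := by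
  have key : ∀ (n k : ℕ) (w : List ι), w.length = n → inv w = k → ∀ x : L,
      act b x (sig b (zz K) w) = S1 b (zz K) [] w x := by
    intro n
    induction n using Nat.strong_induction_on with
    | _ n ihn =>
      intro k
      induction k using Nat.strong_induction_on with
      | _ k ihk =>
        intro w hn hk x
        by_cases hex : ∃ d : List ι × ι × ι × List ι,
            w = d.1 ++ d.2.1 :: d.2.2.1 :: d.2.2.2 ∧ d.2.2.1 < d.2.1
        · obtain ⟨⟨u, p, q, v⟩, hw, hqp⟩ := hex
          simp only at hw hqp
          have hg := good b (zz K) w u p q v hw hqp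
          rw [hg, map_add]
          have h1 : act b x (sig b (zz K) (u ++ q :: p :: v)) =
              S1 b (zz K) [] (u ++ q :: p :: v) x := by
            apply ihk (inv (u ++ q :: p :: v)) _ _ _ rfl
            · rw [← hk, hw]
              exact inv_swap u v hqp
            · rw [← hn, hw]
              simp
          rw [h1]
          -- the bilinear map
          have h2 : ∀ y, act b x (S1 b (zz K) u v y) =
              b.constr K (fun e => S1 b (zz K) [] (u ++ e :: v) x) y := by
            intro y
            have h3 : (act b x) ∘ₗ (S1 b (zz K) u v) =
                b.constr K (fun e => S1 b (zz K) [] (u ++ e :: v) x) := by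
              apply b.ext
              intro e
              rw [LinearMap.comp_apply, S1_basis, Module.Basis.constr_basis]
              apply ihn (u ++ e :: v).length _ _ _ rfl rfl
              rw [← hn, hw]
              simp
            rw [← h3, LinearMap.comp_apply]
          rw [h2]
          -- linear in `x`
          have h4 : S1 b (zz K) [] w = S1 b (zz K) [] (u ++ q :: p :: v) +
              (b.constr K (fun e0 => S1 b (zz K) (e0 :: u) v ⁅b p, b q⁆)) := by
            apply b.ext
            intro e0
            rw [LinearMap.add_apply, S1_basis, S1_basis, Module.Basis.constr_basis]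
            have := good b (zz K) (e0 :: w) (e0 :: u) p q v (by rw [hw]; rfl) hqp
            simpa using this
          rw [h4, LinearMap.add_apply]
          congr 1
          -- exchange the two expansions
          have h5 : ∀ y, b.constr K (fun e => S1 b (zz K) [] (u ++ e :: v) x) y =
              b.constr K (fun e0 => S1 b (zz K) (e0 :: u) v y) x := by
            intro y
            have h6 : (b.constr K (fun e0 => S1 b (zz K) (e0 :: u) v)).flip =
                b.constr K (fun e => S1 b (zz K) [] (u ++ e :: v)) := by
              apply b.ext
              intro e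
              apply b.ext
              intro e0
              rw [LinearMap.flip_apply, Module.Basis.constr_basis, Module.Basis.constr_basis,
                S1_basis, S1_basis]
              rfl
            have h7 := congrArg (fun B => B y x) h6
            simp only [LinearMap.flip_apply] at h7
            have h8 : b.constr K (fun e0 => S1 b (zz K) (e0 :: u) v) x y =
                b.constr K (fun e0 => S1 b (zz K) (e0 :: u) v y) x := by
              have h9 : (b.constr K (fun e0 => S1 b (zz K) (e0 :: u) v)).flip y =
                  b.constr K (fun e0 => S1 b (zz K) (e0 :: u) v y) := by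
                apply b.ext
                intro e0
                rw [LinearMap.flip_apply, Module.Basis.constr_basis, Module.Basis.constr_basis]
              rw [← h9, LinearMap.flip_apply]
            have h10 : b.constr K (fun e => S1 b (zz K) [] (u ++ e :: v)) y x =
                b.constr K (fun e => S1 b (zz K) [] (u ++ e :: v) x) y := by
              have h11 : (b.constr K (fun e => S1 b (zz K) [] (u ++ e :: v))).flip x =
                  b.constr K (fun e => S1 b (zz K) [] (u ++ e :: v) x) := by
                apply b.ext
                intro e
                rw [LinearMap.flip_apply, Module.Basis.constr_basis, Module.Basis.constr_basis]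
              rw [← h11, LinearMap.flip_apply]
            rw [← h10, ← h7, h8]
          exact h5 _
        · have hs := no_descent hex
          rw [sig_of_sorted b (zz K) w hex]
          unfold zz
          rw [act_single, sort_of_pairwise hs]
          rfl
  intro w x
  exact key _ _ w rfl rfl x

theorem act_S1 (b : Module.Basis ι K L) (w : List ι) (x y : L) :
    act b x (S1 b (zz K) [] w y) = S2 b (zz K) [] w x y := by
  have h : (act b x) ∘ₗ (S1 b (zz K) [] w) = S2 b (zz K) [] w x := by
    apply b.ext
    intro f
    rw [LinearMap.comp_apply, S1_basis, S2_left]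
    exact act_sig b (f :: w) x
  rw [← h, LinearMap.comp_apply]

/-- The representation of `L` on the module with basis the multisets. -/
noncomputable def rep (b : Module.Basis ι K L) : L →ₗ⁅K⁆ Module.End K (Multiset ι →₀ K) where
  toFun := act b
  map_add' x y := by
    apply Finsupp.lhom_ext'
    intro s
    apply LinearMap.ext_ring
    show act b (x + y) (Finsupp.single s 1) = (act b x + act b y) (Finsupp.single s 1)
    rw [LinearMap.add_apply, act_single, act_single, act_single, map_add]
  map_smul' k x := by
    apply Finsupp.lhom_ext'
    intro s
    apply LinearMap.ext_ring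
    show act b (k • x) (Finsupp.single s 1) = (k • act b x) (Finsupp.single s 1)
    rw [LinearMap.smul_apply, act_single, act_single, map_smul]
  map_lie' := by
    intro x y
    apply Finsupp.lhom_ext'
    intro s
    apply LinearMap.ext_ring
    show act b ⁅x, y⁆ (Finsupp.single s 1) =
      act b x (act b y (Finsupp.single s 1)) - act b y (act b x (Finsupp.single s 1))
    rw [act_single, act_single, act_single, act_S1, act_S1, comm]

/-- The product of the letters of a word. -/
noncomputable def mon (b : Module.Basis ι K L) (w : List ι) : UniversalEnvelopingAlgebra K L :=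
  (w.map (fun i => UniversalEnvelopingAlgebra.ι K (b i))).prod

theorem mon_append (b : Module.Basis ι K L) (u v : List ι) : mon b (u ++ v) = mon b u * mon b v := by
  unfold mon
  rw [List.map_append, List.prod_append]

theorem mon_cons (b : Module.Basis ι K L) (e : ι) (v : List ι) :
    mon b (e :: v) = UniversalEnvelopingAlgebra.ι K (b e) * mon b v := by
  unfold mon
  rw [List.map_cons, List.prod_cons]

theorem mon_nil (b : Module.Basis ι K L) : mon b [] = 1 := rfl

/-- Evaluation of the action of `U(L)` at the empty multiset. -/
noncomputable def ev (b : Module.Basis ι K L) :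
    UniversalEnvelopingAlgebra K L →ₗ[K] (Multiset ι →₀ K) where
  toFun u := UniversalEnvelopingAlgebra.lift K (rep b) u (Finsupp.single 0 1)
  map_add' u v := by rw [map_add, LinearMap.add_apply]
  map_smul' k u := by rw [map_smul, LinearMap.smul_apply]; rfl

theorem ev_apply (b : Module.Basis ι K L) (u : UniversalEnvelopingAlgebra K L) :
    ev b u = UniversalEnvelopingAlgebra.lift K (rep b) u (Finsupp.single 0 1) := rfl

theorem ev_mon (b : Module.Basis ι K L) (w : List ι) : ev b (mon b w) = sig b (zz K) w := by
  induction w with
  | nil =>
    rw [mon_nil, ev_apply, map_one, Module.End.one_apply]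
    have h := sig_sort (K := K) b (0 : Multiset ι)
    rw [Multiset.sort_zero] at h
    exact h.symm
  | cons e w ih =>
    rw [mon_cons, ev_apply, map_mul, Module.End.mul_apply, ← ev_apply, ih,
      UniversalEnvelopingAlgebra.lift_ι_apply]
    show act b (b e) (sig b (zz K) w) = _
    rw [act_sig, S1_basis]
    rfl

/-- The sorted monomials are linearly independent. -/
theorem linearIndependent_sorted (b : Module.Basis ι K L) :
    LinearIndependent K (fun s : Multiset ι => mon b (s.sort (· ≤ ·))) := by
  apply LinearIndependent.of_comp (ev b)
  have h : (ev b) ∘ (fun s : Multiset ι => mon b (s.sort (· ≤ ·))) =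
      fun s : Multiset ι => Finsupp.single s (1 : K) := by
    funext s
    show ev b (mon b (s.sort (· ≤ ·))) = _
    rw [ev_mon, sig_sort]
  rw [h]
  exact Finsupp.linearIndependent_single_one K _

/-- Every word is a combination of sorted monomials. -/
theorem mon_mem (b : Module.Basis ι K L) (w : List ι) :
    mon b w ∈ Submodule.span K (Set.range (fun s : Multiset ι => mon b (s.sort (· ≤ ·)))) := by
  set P := Submodule.span K (Set.range (fun s : Multiset ι => mon b (s.sort (· ≤ ·)))) with hP
  have key : ∀ (n k : ℕ) (w : List ι), w.length = n → inv w = k → mon b w ∈ P := by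
    intro n
    induction n using Nat.strong_induction_on with
    | _ n ihn =>
      intro k
      induction k using Nat.strong_induction_on with
      | _ k ihk =>
        intro w hn hk
        by_cases hex : ∃ d : List ι × ι × ι × List ι,
            w = d.1 ++ d.2.1 :: d.2.2.1 :: d.2.2.2 ∧ d.2.2.1 < d.2.1
        · obtain ⟨⟨u, p, q, v⟩, hw, hqp⟩ := hex
          simp only at hw hqp
          have h1 : mon b (u ++ q :: p :: v) ∈ P := by
            apply ihk (inv (u ++ q :: p :: v)) _ _ _ rfl
            · rw [← hk, hw]
              exact inv_swap u v hqp
            · rw [← hn, hw]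
              simp
          have h2 : ∀ y : L, mon b u * UniversalEnvelopingAlgebra.ι K y * mon b v ∈ P := by
            intro y
            obtain ⟨F, hF⟩ : ∃ F : L →ₗ[K] UniversalEnvelopingAlgebra K L,
                ∀ y, F y = mon b u * UniversalEnvelopingAlgebra.ι K y * mon b v := by
              refine ⟨(LinearMap.mulRight K (mon b v)) ∘ₗ (LinearMap.mulLeft K (mon b u)) ∘ₗ
                ((UniversalEnvelopingAlgebra.ι K : L →ₗ⁅K⁆ UniversalEnvelopingAlgebra K L) :
                  L →ₗ[K] UniversalEnvelopingAlgebra K L), ?_⟩
              intro y
              rfl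
            rw [← hF]
            have h3 : y ∈ Submodule.comap F P := by
              have h4 : (⊤ : Submodule K L) ≤ Submodule.comap F P := by
                rw [← b.span_eq, Submodule.span_le]
                rintro _ ⟨e, rfl⟩
                show F (b e) ∈ P
                rw [hF, mul_assoc, ← mon_cons, ← mon_append]
                apply ihn (u ++ e :: v).length _ _ _ rfl rfl
                rw [← hn, hw]
                simp
              exact h4 Submodule.mem_top
            exact h3
          have h3 : mon b w = mon b (u ++ q :: p :: v) +
              mon b u * UniversalEnvelopingAlgebra.ι K ⁅b p, b q⁆ * mon b v := by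
            rw [hw, mon_append, mon_append, mon_cons, mon_cons, mon_cons, mon_cons, LieHom.map_lie,
              LieRing.of_associative_ring_bracket]
            noncomm_ring
          rw [h3]
          exact P.add_mem h1 (h2 _)
        · have hs := no_descent hex
          rw [hP]
          apply Submodule.subset_span
          refine ⟨(w : Multiset ι), ?_⟩
          show mon b ((w : Multiset ι).sort (· ≤ ·)) = mon b w
          rw [sort_of_pairwise hs]
  exact key _ _ w rfl rfl

/-- The words span the universal enveloping algebra. -/
theorem span_words (b : Module.Basis ι K L) :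
    Submodule.span K (Set.range (mon b)) = ⊤ := by
  set P := Submodule.span K (Set.range (mon b)) with hP
  have h1 : (1 : UniversalEnvelopingAlgebra K L) ∈ P := by
    rw [hP]
    exact Submodule.subset_span ⟨[], mon_nil b⟩
  have hmul : ∀ x y, x ∈ P → y ∈ P → x * y ∈ P := by
    intro x y hx hy
    have : x * y ∈ P * P := Submodule.mul_mem_mul hx hy
    have h2 : P * P ≤ P := by
      rw [hP, Submodule.span_mul_span, Submodule.span_le]
      rintro _ ⟨_, ⟨u, rfl⟩, _, ⟨v, rfl⟩, rfl⟩
      apply Submodule.subset_span
      exact ⟨u ++ v, mon_append b u v⟩
    exact h2 this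
  let A : Subalgebra K (UniversalEnvelopingAlgebra K L) := P.toSubalgebra h1 hmul
  have hι : ∀ y : L, UniversalEnvelopingAlgebra.ι K y ∈ A := by
    intro y
    have h4 : (⊤ : Submodule K L) ≤ Submodule.comap
        ((UniversalEnvelopingAlgebra.ι K : L →ₗ⁅K⁆ UniversalEnvelopingAlgebra K L) :
          L →ₗ[K] UniversalEnvelopingAlgebra K L) P := by
      rw [← b.span_eq, Submodule.span_le]
      rintro _ ⟨e, rfl⟩
      show UniversalEnvelopingAlgebra.ι K (b e) ∈ P
      rw [hP]
      apply Submodule.subset_span
      refine ⟨[e], ?_⟩
      rw [mon_cons, mon_nil, mul_one]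
    exact h4 Submodule.mem_top
  rw [Submodule.eq_top_iff']
  intro x
  let f : L →ₗ⁅K⁆ A :=
    { toFun := fun y => ⟨UniversalEnvelopingAlgebra.ι K y, hι y⟩
      map_add' := fun y z => by ext; simp
      map_smul' := fun k y => by ext; simp
      map_lie' := by
        intro y z
        ext
        simp [LieRing.of_associative_ring_bracket] }
  have h5 : A.val.comp (UniversalEnvelopingAlgebra.lift K f) =
      AlgHom.id K (UniversalEnvelopingAlgebra K L) := by
    apply UniversalEnvelopingAlgebra.hom_ext
    ext y
    simp [f]
  have h6 : x = A.val (UniversalEnvelopingAlgebra.lift K f x) := by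
    have := congrArg (fun F => F x) h5
    simpa using this.symm
  rw [h6]
  exact (UniversalEnvelopingAlgebra.lift K f x).2

theorem span_sorted (b : Module.Basis ι K L) :
    Submodule.span K (Set.range (fun s : Multiset ι => mon b (s.sort (· ≤ ·)))) = ⊤ := by
  rw [eq_top_iff, ← span_words b, Submodule.span_le]
  rintro _ ⟨w, rfl⟩
  exact mon_mem b w

/-- **PBW**: the sorted monomials form a basis of the universal enveloping algebra. -/
noncomputable def pbw (b : Module.Basis ι K L) :
    Module.Basis (Multiset ι) K (UniversalEnvelopingAlgebra K L) :=
  Module.Basis.mk (linearIndependent_sorted b) (span_sorted b).ge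

theorem pbw_apply (b : Module.Basis ι K L) (s : Multiset ι) :
    pbw b s = mon b (s.sort (· ≤ ·)) := by
  unfold pbw
  rw [Module.Basis.mk_apply]

theorem ι_injective (b : Module.Basis ι K L) :
    Function.Injective (UniversalEnvelopingAlgebra.ι K : L → UniversalEnvelopingAlgebra K L) := by
  have h : LinearIndependent K (fun i : ι => UniversalEnvelopingAlgebra.ι K (b i)) := by
    have h1 := (linearIndependent_sorted b).comp (fun i : ι => ({i} : Multiset ι))
      (fun i j hij => Multiset.singleton_inj.mp hij)
    have h2 : (fun s : Multiset ι => mon b (s.sort (· ≤ ·))) ∘ (fun i : ι => ({i} : Multiset ι)) =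
        fun i : ι => UniversalEnvelopingAlgebra.ι K (b i) := by
      funext i
      show mon b (Multiset.sort {i} (· ≤ ·)) = _
      rw [Multiset.sort_singleton, mon_cons, mon_nil, mul_one]
    rw [h2] at h1
    exact h1
  have h3 := b.injective_constr_of_linearIndependent (R₂ := K) h
  have h4 : b.constr K (fun i : ι => UniversalEnvelopingAlgebra.ι K (b i)) =
      ((UniversalEnvelopingAlgebra.ι K : L →ₗ⁅K⁆ UniversalEnvelopingAlgebra K L) :
        L →ₗ[K] UniversalEnvelopingAlgebra K L) := by
    apply b.ext
    intro i
    rw [Module.Basis.constr_basis]
    rfl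
  rw [h4] at h3
  exact h3

end Pool.Agent.Bht.LibPBW88
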